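import Mathlib
import Pool.Agent.Helper7.KE.F2
import Pool.Agent.Helper7.KE.F3
import Pool.Agent.Helper7.KE.F4

/-!
# MP_f940ca_an, Q1: conformal images of circle domains

`Ω = ψ(U)`, where `U` is a disc minus finitely many disjoint closed discs and `ψ` is injective and
holomorphic with bounded derivative, and `h` is a bounded holomorphic function on `Ω` with a nonzero
period.  Then `S_h f = conj h * T f` has infinitely many eigenvalues: for every `ε > 0` it has an
eigenvalue `c` with `0 < |c| < ε`.  By the theorems of Koebe and of Kellogg and Warschawski every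
bounded domain with `C^∞` boundary is such a domain `Ω`.

The proof: by conformal invariance `Ω = U`, and `h dz = ∂(2ρ) + ...` is replaced, after a gauge
transformation, by the differential of a complex harmonic function `ρ_w = Σ w_j ω_j` in the harmonic
measures `ω_j`.  Then `1/μ` is an eigenvalue iff the Toeplitz operator with symbol `exp(μ ρ_w)` on
the Bergman space is not invertible.  For large real `N`, the operator with symbol `exp(i N ρ)` has
determinants with asymptotic expansions in powers of `1/N` and `log N`, uniformly in parameters; they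
are not all zero by an exact positivity identity.  If there were no large eigenvalues, a homotopy of
Fredholm families along the closure of a linear flow on a torus would bound the inverse of an
operator that nearly has a kernel.
-/

set_option autoImplicit false

open MeasureTheory Set
open scoped ENNReal ComplexConjugate

namespace Pool.Agent.Results.MP_f940ca_an.CircleModel

/-- A circle domain: the disc of radius `R` about `0` minus `k` disjoint closed discs of positive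
radii, contained in it. -/
structure CircleDomain (k : ℕ) where
  R : ℝ
  a : Fin k → ℂ
  r : Fin k → ℝ
  Rpos : 0 < R
  rpos : ∀ j, 0 < r j
  inside : ∀ j, ‖a j‖ + r j < R
  disj : ∀ i j, i ≠ j → r i + r j < ‖a i - a j‖

/-- the set of points of a circle domain -/
def CircleDomain.U {k : ℕ} (D : CircleDomain k) : Set ℂ :=
  {z | ‖z‖ < D.R ∧ ∀ j, D.r j < ‖z - D.a j‖}

/-- the operator `∂/∂z̄` on differentiable functions of the real plane -/
noncomputable def dzbar (φ : ℂ → ℂ) (z : ℂ) : ℂ :=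
  (fderiv ℝ φ z 1 + Complex.I * fderiv ℝ φ z Complex.I) / 2

/-- `u = T f`, the canonical (Kohn) solution of `∂u/∂z̄ = f` in `L²(Ω)`: the function `u` is in
`L²(Ω)`, it solves the equation in the sense of distributions, and it is orthogonal to all
square-integrable holomorphic functions. -/
structure IsCanonicalSolution (Ω : Set ℂ) (f u : ℂ → ℂ) : Prop where
  memLp : MemLp u 2 (volume.restrict Ω)
  weak : ∀ φ : ℂ → ℂ, ContDiff ℝ (⊤ : ℕ∞) φ → HasCompactSupport φ → tsupport φ ⊆ Ω →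
    ∫ z in Ω, u z * dzbar φ z = -∫ z in Ω, f z * φ z
  orth : ∀ g : ℂ → ℂ, DifferentiableOn ℂ g Ω → MemLp g 2 (volume.restrict Ω) →
    ∫ z in Ω, u z * conj (g z) = 0

/-- `c` is an eigenvalue of the operator `S_h f = conj h * T f` on `L²(Ω)`. -/
def IsEigenvalue (Ω : Set ℂ) (h : ℂ → ℂ) (c : ℂ) : Prop :=
  ∃ f u : ℂ → ℂ, MemLp f 2 (volume.restrict Ω) ∧ (¬ ∀ᵐ z ∂(volume.restrict Ω), f z = 0) ∧
    IsCanonicalSolution Ω f u ∧ ∀ᵐ z ∂(volume.restrict Ω), conj (h z) * u z = c * f z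

/-- closed `C¹` curves in `Ω`, parametrised by `[0,1]` -/
def IsLoop (Ω : Set ℂ) (γ : ℝ → ℂ) : Prop :=
  ContDiff ℝ 1 γ ∧ γ 0 = γ 1 ∧ ∀ t ∈ Icc (0 : ℝ) 1, γ t ∈ Ω

/-- the period of `h dz` along `γ` -/
noncomputable def period (h : ℂ → ℂ) (γ : ℝ → ℂ) : ℂ := ∫ t in (0 : ℝ)..1, h (γ t) * deriv γ t

open Pool.Agent.Helper7.KE

/-- from solutions of `∂u/∂z̄ = μ conj h u` to eigenvalues -/
theorem eig_of_sol {Ω : Set ℂ} (hΩ : IsOpen Ω) (hc : IsPreconnected Ω) {h : ℂ → ℂ}
    (hh : DifferentiableOn ℂ h Ω) (hb : ∃ C : ℝ, ∀ z ∈ Ω, ‖h z‖ ≤ C)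
    (hne : ∃ z ∈ Ω, h z ≠ 0) {μ : ℂ} (hμ : μ ≠ 0) {u : ℂ → ℂ} (hu : IsSol Ω h μ u) :
    IsEigenvalue Ω h μ⁻¹ := by
  obtain ⟨C, hC⟩ := hb
  have hk0 : ∀ᵐ z ∂(volume.restrict Ω), h z ≠ 0 := by
    have han : AnalyticOnNhd ℂ h Ω := hh.analyticOnNhd hΩ
    rcases han.eqOn_zero_or_eventually_ne_zero_of_preconnected hc with h0 | h0
    · exfalso
      obtain ⟨z, hz, hz0⟩ := hne
      exact hz0 (h0 hz)
    · exact ae_restrict_le_codiscreteWithin hΩ.measurableSet h0
  have hm : AEStronglyMeasurable (fun z => μ * conj (h z)) (volume.restrict Ω) :=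
    (Complex.continuous_conj.comp_aestronglyMeasurable
      (hh.continuousOn.aestronglyMeasurable hΩ.measurableSet)).const_mul _
  refine ⟨fun z => μ * conj (h z) * u z, u, ?_, ?_, ⟨hu.memLp, ?_, hu.orth⟩, ?_⟩
  · refine MemLp.of_le_mul (c := ‖μ‖ * C) hu.memLp (hm.mul hu.memLp.1) ?_
    filter_upwards [ae_restrict_mem hΩ.measurableSet] with z hz
    rw [norm_mul, norm_mul, RCLike.norm_conj]
    exact mul_le_mul_of_nonneg_right (mul_le_mul_of_nonneg_left (hC z hz) (norm_nonneg _))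
      (norm_nonneg _)
  · intro h0
    apply hu.ne
    filter_upwards [h0, hk0] with z hz hz0
    rcases mul_eq_zero.1 hz with h1 | h1
    · rcases mul_eq_zero.1 h1 with h2 | h2
      · exact absurd h2 hμ
      · exact absurd ((map_eq_zero _).1 h2) hz0
    · exact h1
  · intro φ h1 h2 h3
    have e1 := hu.weak φ ⟨h1, h2, h3⟩
    have e2 : dzbar φ = dzb φ := by
      funext z
      simp only [dzbar, dzb, smul_eq_mul]
      ring
    rw [e2]
    exact e1
  · filter_upwards with z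
    field_simp

theorem result {k : ℕ} (D : CircleDomain k) (ψ : ℂ → ℂ) (hψ : DifferentiableOn ℂ ψ D.U)
    (hinj : InjOn ψ D.U) (hbd : ∃ C : ℝ, ∀ z ∈ D.U, ‖deriv ψ z‖ ≤ C) (Ω : Set ℂ)
    (hΩ : Ω = ψ '' D.U) (h : ℂ → ℂ) (hh : DifferentiableOn ℂ h Ω)
    (hb : ∃ C : ℝ, ∀ z ∈ Ω, ‖h z‖ ≤ C) (hper : ∃ γ, IsLoop Ω γ ∧ period h γ ≠ 0)
    (ε : ℝ) (hε : 0 < ε) : ∃ c : ℂ, 0 < ‖c‖ ∧ ‖c‖ < ε ∧ IsEigenvalue Ω h c := by
  obtain ⟨D', hD'⟩ : ∃ D' : CD k, D'.U = D.U :=
    ⟨⟨D.R, D.a, D.r, D.Rpos, D.rpos, D.inside, D.disj⟩, rfl⟩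
  rw [← hD'] at hψ hinj hbd hΩ
  obtain ⟨γ, hγ, hγne⟩ := hper
  have hUo := D'.U_open
  have himg : ψ '' D'.U = Ω := hΩ.symm
  have hΩo : IsOpen Ω := by
    rw [hΩ]; exact transfer_image_open hUo hψ hinj
  have hΩc : IsPreconnected Ω := by
    rw [hΩ]; exact (U_preconnected D').image ψ hψ.continuousOn
  have hmaps : MapsTo ψ D'.U Ω := fun z hz => by rw [hΩ]; exact mem_image_of_mem ψ hz
  have hnp := no_primitive hUo hψ hinj himg hh hγ.1 hγ.2.1 hγ.2.2 hγne
  obtain ⟨C₁, hC₁⟩ := hbd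
  obtain ⟨C₂, hC₂⟩ := hb
  have hd : DifferentiableOn ℂ (fun z => h (ψ z) * deriv ψ z) D'.U :=
    (hh.comp hψ hmaps).mul (hψ.deriv hUo)
  obtain ⟨μ, hμ, u, hu⟩ := circle_bounded D' hd ⟨C₂ * C₁, fun z hz => by
    rw [norm_mul]
    exact mul_le_mul (hC₂ _ (hmaps hz)) (hC₁ z hz) (norm_nonneg _)
      ((norm_nonneg _).trans (hC₂ _ (hmaps hz)))⟩ hnp ε⁻¹
  have hεi : 0 < ε⁻¹ := inv_pos.2 hε
  have hμ0 : μ ≠ 0 := norm_pos_iff.1 (hεi.trans hμ)
  obtain ⟨u', hu'⟩ := transfer hUo (U_preconnected D')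
    (D'.cU_compact.isBounded.subset D'.U_subset_cU) hψ hinj himg ⟨C₁, hC₁⟩ hh ⟨C₂, hC₂⟩ hu
  refine ⟨μ⁻¹, norm_pos_iff.2 (inv_ne_zero hμ0), ?_, ?_⟩
  · rw [norm_inv]
    exact inv_lt_of_inv_lt₀ hε hμ
  · refine eig_of_sol hΩo hΩc hh ⟨C₂, hC₂⟩ ?_ hμ0 hu'
    by_contra hcon
    push Not at hcon
    apply hγne
    unfold period
    have : ∫ t in (0 : ℝ)..1, h (γ t) * deriv γ t = ∫ t in (0 : ℝ)..1, (0 : ℂ) := by
      apply intervalIntegral.integral_congr
      intro t ht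
      rw [uIcc_of_le zero_le_one] at ht
      simp only [hcon _ (hγ.2.2 t ht), zero_mul]
    rw [this]; simp

end Pool.Agent.Results.MP_f940ca_an.CircleModel
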